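import Mathlib
import Pool.Agent.Z894.CP.Stm2
import Pool.Agent.Y641.LX.Group0

set_option autoImplicit false

namespace Pool.Agent.Z894.MB

open Finset

theorem top {ι : Type} [DecidableEq ι] (w : ι → ℕ) (S : Finset ι) :
    ∀ b ≤ S.card, ∃ T ⊆ S, T.card = b ∧ ∀ x ∈ T, ∀ y ∈ S \ T, w y ≤ w x := by
  intro b
  induction b with
  | zero => intro _; exact ⟨∅, by simp, rfl, by simp⟩
  | succ b ih =>
    intro hb
    obtain ⟨T, hT, hc, hd⟩ := ih (by omega)
    have hne : (S \ T).Nonempty := by
      rw [← Finset.card_pos, Finset.card_sdiff_of_subset hT]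
      omega
    obtain ⟨z, hz, hmax⟩ := Finset.exists_max_image (S \ T) w hne
    have hzT : z ∉ T := (Finset.mem_sdiff.1 hz).2
    refine ⟨insert z T, ?_, ?_, ?_⟩
    · intro x hx
      rcases Finset.mem_insert.1 hx with rfl | hx
      · exact (Finset.mem_sdiff.1 hz).1
      · exact hT hx
    · rw [Finset.card_insert_of_notMem hzT, hc]
    · intro x hx y hy
      have hy' : y ∈ S \ T := Finset.mem_sdiff.2
        ⟨(Finset.mem_sdiff.1 hy).1, fun h => (Finset.mem_sdiff.1 hy).2 (Finset.mem_insert_of_mem h)⟩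
      rcases Finset.mem_insert.1 hx with rfl | hx
      · exact hmax y hy'
      · exact hd x hx y hy'

theorem numer {ι : Type} [DecidableEq ι] (w : ι → ℕ) (S : Finset ι) (hw : ∀ i ∈ S, 1 ≤ w i)
    (G : ℕ) :
    ∃ T ⊆ S, T.card ≤ (S \ T).card + G + 1 ∧
      ∑ i ∈ S, (w i + 1) + 2 * G ≤ 2 * (∑ i ∈ T, w i + ((S \ T).card + G)) := by
  obtain ⟨T, hT, hc, hd⟩ := top w S (min S.card ((S.card + G + 1) / 2)) (min_le_left _ _)
  have h1 : (S \ T).card = S.card - T.card := Finset.card_sdiff_of_subset hT
  have h2 : T.card ≤ S.card := Finset.card_le_card hT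
  refine ⟨T, hT, ?_, ?_⟩
  · omega
  · have h3 : ∑ i ∈ S \ T, (w i + 1) + ∑ i ∈ T, (w i + 1) = ∑ i ∈ S, (w i + 1) :=
      Finset.sum_sdiff hT
    have h4 : ∑ i ∈ S \ T, (w i + 1) = ∑ i ∈ S \ T, w i + (S \ T).card := by
      rw [Finset.sum_add_distrib, Finset.card_eq_sum_ones]
    have h5 : ∑ i ∈ T, (w i + 1) = ∑ i ∈ T, w i + T.card := by
      rw [Finset.sum_add_distrib, Finset.card_eq_sum_ones]
    have h6 : T.card ≤ ∑ i ∈ T, w i := by
      rw [Finset.card_eq_sum_ones]
      exact Finset.sum_le_sum fun i hi => hw i (hT hi)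
    by_cases hle : S.card ≤ (S.card + G + 1) / 2
    · have h7 : T = S := Finset.eq_of_subset_of_card_le hT (by rw [hc]; simp [hle])
      subst h7
      simp only [Finset.sdiff_self, Finset.card_empty, Finset.sum_empty] at *
      omega
    · have hc' : T.card = (S.card + G + 1) / 2 := by rw [hc]; omega
      have hTne : T.Nonempty := by
        rw [← Finset.card_pos]; omega
      obtain ⟨z, hz, hmin⟩ := Finset.exists_min_image T w hTne
      have hz1 : 1 ≤ w z := hw z (hT hz)
      have h8 : T.card * w z ≤ ∑ i ∈ T, w i := by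
        rw [← smul_eq_mul, ← Finset.sum_const]
        exact Finset.sum_le_sum fun i hi => hmin i hi
      have h9 : ∑ i ∈ S \ T, w i ≤ (S \ T).card * w z := by
        rw [← smul_eq_mul, ← Finset.sum_const]
        exact Finset.sum_le_sum fun i hi => hd z hz i hi
      have h10 : G ≤ G * w z := Nat.le_mul_of_pos_right _ hz1
      rcases Nat.even_or_odd' (S.card + G) with ⟨q, hq | hq⟩
      · have e1 : T.card = q := by omega
        have e2 : (S \ T).card + G = q := by omega
        have e3 : (S \ T).card * w z + G * w z = T.card * w z := by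
          rw [← Nat.add_mul, e2, e1]
        omega
      · have e1 : T.card = q + 1 := by omega
        have e2 : (S \ T).card + G = q := by omega
        have e3 : (S \ T).card * w z + G * w z + w z = T.card * w z := by
          rw [← Nat.add_mul, e2, e1]; ring
        omega

theorem comb_holds : Pool.Agent.Z894.CP.MComb := by
  classical
  intro r n s v hn hs hv hvn
  obtain ⟨G, g0, hg1, hg2, hg3⟩ := Pool.Agent.Y641.LX.greedy s hs v _
    (Finset.univ.filter fun i => v i < s) le_rfl (fun i hi => (Finset.mem_filter.1 hi).2)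
  set S : Finset (Fin r) := Finset.univ.filter (fun i => ¬ v i < s) with hS
  have hw1 : ∀ i ∈ S, 1 ≤ v i / s := fun i hi =>
    (Nat.one_le_div_iff hs).2 (not_lt.1 (Finset.mem_filter.1 hi).2)
  obtain ⟨T, hT, hTc, hTn⟩ := numer (fun i => v i / s) S hw1 G
  -- the total weight
  have hsum := Finset.sum_filter_add_sum_filter_not Finset.univ (fun i => v i < s) v
  have hbig : ∑ i ∈ S, v i ≤ s * ∑ i ∈ S, (v i / s + 1) := by
    rw [Finset.mul_sum]
    refine Finset.sum_le_sum fun i _ => ?_
    have h5 := Nat.div_add_mod (v i) s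
    have h6 := Nat.mod_lt (v i) hs
    rw [Nat.mul_add, Nat.mul_one]
    omega
  have hM : 2 * n - 1 ≤ ∑ i ∈ S, (v i / s + 1) + 2 * G := by
    have h3 : (2 * n - 1) * s < (∑ i ∈ S, (v i / s + 1) + 2 * G + 1) * s := by
      have e : (∑ i ∈ S, (v i / s + 1) + 2 * G + 1) * s
          = 2 * s * G + s + s * ∑ i ∈ S, (v i / s + 1) := by ring
      rw [e]
      have : ∑ i ∈ S, v i = ∑ i ∈ Finset.univ.filter (fun i => ¬ v i < s), v i := rfl
      omega
    have h4 := Nat.lt_of_mul_lt_mul_right h3
    omega
  have hAm : n ≤ ∑ i ∈ T, v i / s + ((S \ T).card + G) := by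
    have := hM.trans hTn
    omega
  -- a dummy index
  have hr : 0 < r := by
    rcases Nat.eq_zero_or_pos r with h | h
    · exfalso
      subst h
      simp only [Finset.univ_eq_empty, Finset.sum_empty, Nat.le_zero, mul_eq_zero] at hv
      omega
    · exact h
  set A := ∑ i ∈ T, v i / s with hA
  set σ := (n + 1) - (A + T.card) with hσ
  have key : ∀ x ∈ T, v x / s + 1 ≤ n ∧
      (if h : x ∈ S \ T then some (Fin.castAdd G ((S \ T).equivFin ⟨x, h⟩))
        else (g0 x).map (Fin.natAdd (S \ T).card)) = none ∧ s * (v x / s) ≤ v x := by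
    intro x hx
    refine ⟨?_, ?_, ?_⟩
    · exact Nat.div_lt_of_lt_mul (by rw [Nat.mul_comm]; exact hvn x)
    · have h1 : x ∉ S \ T := fun h => (Finset.mem_sdiff.1 h).2 hx
      have h2 : g0 x = none := hg1 x fun h =>
        (Finset.mem_filter.1 (hT hx)).2 (Finset.mem_filter.1 h).2
      rw [dif_neg h1, h2]
      rfl
    · exact Nat.mul_div_le _ _
  refine ⟨(S \ T).card + G, T.card + σ,
    Fin.addCases (fun j => v (T.equivFin.symm j).1 / s) (fun _ => 0),
    Fin.addCases (fun j => (T.equivFin.symm j).1) (fun _ => ⟨0, hr⟩),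
    fun i => if h : i ∈ S \ T then some (Fin.castAdd G ((S \ T).equivFin ⟨i, h⟩))
      else (g0 i).map (Fin.natAdd (S \ T).card), ?_, ?_, ?_, ?_, ?_⟩
  · omega
  · rw [Fin.sum_univ_add]
    simp only [Fin.addCases_left, Fin.addCases_right]
    have h1 : ∑ j : Fin T.card, (v (T.equivFin.symm j).1 / s + 1) = A + T.card := by
      rw [Equiv.sum_comp T.equivFin.symm (fun x : {x // x ∈ T} => v x.1 / s + 1),
        Finset.sum_coe_sort T (fun i => v i / s + 1), Finset.sum_add_distrib,
        ← Finset.card_eq_sum_ones]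
    rw [h1]
    simp only [zero_add, Finset.sum_const, Finset.card_univ, Fintype.card_fin, smul_eq_mul,
      mul_one]
    omega
  · intro b
    refine Fin.addCases (fun j => ?_) (fun j => ?_) b
    · intro _
      simp only [Fin.addCases_left]
      exact key _ (T.equivFin.symm j).2
    · intro h
      simp at h
  · intro b b'
    refine Fin.addCases (fun j => ?_) (fun j => ?_) b
    · refine Fin.addCases (fun j' => ?_) (fun j' => ?_) b'
      · intro _ _ h
        simp only [Fin.addCases_left] at h
        have := T.equivFin.symm.injective (Subtype.ext h)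
        rw [this]
      · intro _ h
        simp at h
    · intro h
      simp at h
  · intro c
    refine Fin.addCases (fun j => ?_) (fun j => ?_) c
    · set x := ((S \ T).equivFin.symm j) with hx
      have hxS : x.1 ∈ S := (Finset.mem_sdiff.1 x.2).1
      have h1 : s ≤ v x.1 := not_lt.1 (Finset.mem_filter.1 hxS).2
      refine h1.trans (Finset.single_le_sum (f := v) (fun _ _ => Nat.zero_le _) ?_)
      refine Finset.mem_filter.2 ⟨Finset.mem_univ _, ?_⟩
      beta_reduce
      rw [dif_pos x.2]
      congr 2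
      rw [Subtype.coe_eta, hx, Equiv.apply_symm_apply]
    · refine (hg2 j).trans (Finset.sum_le_sum_of_subset fun i hi => ?_)
      have h2 := (Finset.mem_filter.1 hi).2
      have h3 : i ∉ S \ T := fun h => by
        have h4 : g0 i = none := hg1 i fun h' =>
          (Finset.mem_filter.1 (Finset.mem_sdiff.1 h).1).2 (Finset.mem_filter.1 h').2
        rw [h4] at h2
        simp at h2
      exact Finset.mem_filter.2 ⟨Finset.mem_univ _, by simp [h3, h2]⟩

end Pool.Agent.Z894.MB
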