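import Mathlib
import Pool.Agent.Z894.CP.Stm2
import Pool.Agent.Z894.CP.Fin
import Pool.Agent.Z894.MB.Comb
import Pool.Agent.Y405.MB.Val
import Pool.Agent.Y170.MB.Cmp
import Pool.Agent.Y146.MB.K2
import Pool.Agent.Y378.MB.K1
import Pool.Agent.Y784.CP.B
import Pool.Agent.Y681.MB.Fin
import Pool.Agent.Z894.LX.Fin

set_option autoImplicit false

namespace Pool.Agent.Z894.MB

theorem final : Pool.Agent.Z894.CP.MFinal :=
  Pool.Agent.Y681.MB.mfinal_holds
    (Pool.Agent.Y784.CP.mmain_holds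
      (Pool.Agent.Y378.MB.k1_holds
        (Pool.Agent.Y146.MB.k2_holds Pool.Agent.Y405.MB.val_holds Pool.Agent.Y405.CP.alg_holds
          Pool.Agent.Z894.CP.kappa)
        Pool.Agent.Y170.MB.cmp_holds
        (Pool.Agent.Y484.LX.merge_holds Pool.Agent.Y686.LX.ratios_holds)
        Pool.Agent.Y592.LX.int_holds)
      Pool.Agent.Y405.CP.alg_holds)
    Pool.Agent.Z894.MB.comb_holds

end Pool.Agent.Z894.MB
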